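import Mathlib

/-!
# The rank of a square matrix does not change under extension of fields
-/

set_option autoImplicit false

namespace Pool.Agent.PR

open Matrix

/-- The rank of a matrix over a field does not change under a field extension. -/
theorem rank_map_ext {n : ℕ} {F K : Type*} [Field F] [Field K] (f : F →+* K)
    (A : Matrix (Fin n) (Fin n) F) : (A.map f).rank = A.rank := by
  classical
  obtain ⟨L, L', D, h⟩ := Matrix.Pivot.exists_list_transvec_mul_mul_list_transvec_eq_diagonal A
  set P := (L.map TransvectionStruct.toMatrix).prod with hP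
  set Q := (L'.map TransvectionStruct.toMatrix).prod with hQ
  have dP : P.det = 1 := by
    rw [hP]
    exact TransvectionStruct.det_toMatrix_prod L
  have dQ : Q.det = 1 := by
    rw [hQ]
    exact TransvectionStruct.det_toMatrix_prod L'
  have h1 : A.rank = (diagonal D).rank := by
    rw [← h, Matrix.rank_mul_eq_left_of_isUnit_det Q (P * A) (by rw [dQ]; exact isUnit_one),
      Matrix.rank_mul_eq_right_of_isUnit_det P A (by rw [dP]; exact isUnit_one)]
  have h2 : P.map f * A.map f * Q.map f = diagonal (fun i => f (D i)) := by
    have h3 := congrArg (fun M : Matrix (Fin n) (Fin n) F => M.map f) h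
    simp only [Matrix.map_mul] at h3
    rw [h3, Matrix.diagonal_map (map_zero f)]
  have dP' : IsUnit (P.map f).det := by
    rw [← RingHom.mapMatrix_apply, ← RingHom.map_det, dP, map_one]
    exact isUnit_one
  have dQ' : IsUnit (Q.map f).det := by
    rw [← RingHom.mapMatrix_apply, ← RingHom.map_det, dQ, map_one]
    exact isUnit_one
  have h4 : (A.map f).rank = (diagonal (fun i => f (D i))).rank := by
    rw [← h2, Matrix.rank_mul_eq_left_of_isUnit_det _ _ dQ',
      Matrix.rank_mul_eq_right_of_isUnit_det _ _ dP']
  rw [h1, h4, Matrix.rank_diagonal, Matrix.rank_diagonal]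
  simp

end Pool.Agent.PR
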