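import Pool.Agent.helper48.PR.Defs

/-!
# Project pr (MP_a2a22c_al), part N: rank one elements in nilpotent groups (`NIL_stmt`)

A module N_XX proves `theorem N_XX (hYY : N_YY_stmt) ... : N_XX_stmt` (any EARLIER statements of this
file may be used as hypotheses; `N_KC` may also use `C1_stmt` of helper48's SpecC) in the file
`Pool/Agent/<seat>/PR/N_XX.lean`, namespace `Pool.Agent.PR`, auxiliary lemmas with the prefix `N_XX_`.

Notation in the proofs: `γ_1(Q) = Q`, `γ_{k+1}(Q) = [γ_k(Q), Q]`, so in Mathlib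
`(⊤ : Subgroup Q).lowerCentralSeries k` is `γ_{k+1}(Q)`; `Z_i` is the upper central series.
Useful in `Mathlib/GroupTheory/Nilpotent.lean`: `Subgroup.mem_upperCentralSeries_succ_iff`,
`Subgroup.upperCentralSeries`, `Subgroup.lowerCentralSeries_succ`, `Subgroup.mem_lowerCentralSeries_succ_iff`,
`lowerCentralSeries_length_eq_nilpotencyClass`, `lowerCentralSeries_eq_bot_iff_upperCentralSeries_eq_top`.
-/

set_option autoImplicit false

namespace Pool.Agent.PR

open Module

section defs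

variable {K V Q : Type} [Field K] [AddCommGroup V] [Module K V] [Group Q]

/-- `W` is invariant under `ρ` -/
def InvS (ρ : Q →* Module.End K V) (W : Submodule K V) : Prop :=
  ∀ g : Q, ∀ w ∈ W, ρ g w ∈ W

/-- Between any two different invariant subspaces `W < U` there is an eigenvector of the whole group
modulo `W`. (For finite dimensional `V` this says that the representation is triangularisable.) -/
def TriS (ρ : Q →* Module.End K V) : Prop :=
  ∀ W U : Submodule K V, InvS ρ W → InvS ρ U → W < U →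
    ∃ v ∈ U, v ∉ W ∧ ∀ g : Q, ∃ c : K, ρ g v - c • v ∈ W

/-- restriction of a representation to an invariant subspace -/
def resS (ρ : Q →* Module.End K V) (W : Submodule K V) (hW : InvS ρ W) : Q →* Module.End K W where
  toFun g := (ρ g).restrict (hW g)
  map_one' := by ext w; simp
  map_mul' g h := by ext w; simp

/-- the representation on the quotient by an invariant subspace -/
def quoS (ρ : Q →* Module.End K V) (W : Submodule K V) (hW : InvS ρ W) :
    Q →* Module.End K (V ⧸ W) where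
  toFun g := W.mapQ W (ρ g) (fun w hw => hW g w hw)
  map_one' := by ext w; simp
  map_mul' g h := by ext w; simp

end defs

/-- N_EXP. If the centre of the nilpotent group `P / S` has exponent `d` then `P / S` has exponent
`d ^ c`. Proof. `T_0 = S`, `T_{i+1} = {x : ∀ g, x g x⁻¹ g⁻¹ ∈ T_i}` (the preimages of the upper central
series of `P / S`), normal subgroups, `Z_i(P) ≤ T_i` (induction). Claim: `x ∈ T_{i+1} → x ^ d ∈ T_i`,
induction on `i`. `i = 0` is the hypothesis. `i ≥ 1`: let `g ∈ P`, `h = [x, g] ∈ T_i`. Modulo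
`T_{i-1}` `h` is central, so `[x ^ d, g] ≡ h ^ d` modulo `T_{i-1}`, and `h ^ d ∈ T_{i-1}` by induction
(`h ∈ T_i`). So `[x ^ d, g] ∈ T_{i-1}` for all `g`, `x ^ d ∈ T_i`. -/
def N_EXP_stmt : Prop :=
  ∀ (P : Type) [Group P] (c : ℕ), Subgroup.upperCentralSeries P c = ⊤ → ∀ (S : Subgroup P), S.Normal →
    ∀ d : ℕ, (∀ z : P, (∀ g : P, z * g * z⁻¹ * g⁻¹ ∈ S) → z ^ d ∈ S) → ∀ g : P, g ^ d ^ c ∈ S

/-- N_IRR. In an irreducible representation of dimension `d` of a nilpotent group of class `≤ c`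
the `d ^ c`-th powers are scalar. Proof. `S = {g : ρ g is scalar}` is a normal subgroup (`V ≠ 0`; the
operators `ρ g` are invertible, scalars are nonzero). N_EXP with this `d`: let `z` be central modulo `S`,
so for all `g` `ρ z * ρ g = λ_g • (ρ g * ρ z)` with a scalar `λ_g`; determinants (`LinearMap.det`,
`LinearMap.det_smul`; `det (ρ g) ≠ 0`): `λ_g ^ d = 1`. So
`ρ (z ^ d) * ρ g = λ_g ^ d • (ρ g * ρ (z ^ d)) = ρ g * ρ (z ^ d)`. Schur: `ρ (z ^ d)` has an eigenvalue
`a` (`Module.End.exists_eigenvalue`), the eigenspace is invariant and not `⊥`, so it is `⊤`. -/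
def N_IRR_stmt : Prop :=
  ∀ (K V : Type) [Field K] [IsAlgClosed K] [AddCommGroup V] [Module K V] [FiniteDimensional K V]
    [Nontrivial V] (P : Type) [Group P] (c : ℕ), Subgroup.upperCentralSeries P c = ⊤ →
    ∀ ρ : P →* Module.End K V, (∀ W, InvS ρ W → W = ⊥ ∨ W = ⊤) →
      ∀ g : P, ∃ a : K, ρ (g ^ (finrank K V) ^ c) = a • (1 : Module.End K V)

/-- N_RES. `TriS` passes to subspaces and quotients (image and preimage of invariant subspaces under
`W.subtype` resp. `W.mkQ`). -/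
def N_RES_stmt : Prop :=
  ∀ (K V Q : Type) [Field K] [AddCommGroup V] [Module K V] [Group Q] (ρ : Q →* Module.End K V)
    (W : Submodule K V) (hW : InvS ρ W), TriS ρ → TriS (resS ρ W hW) ∧ TriS (quoS ρ W hW)

/-- N_TRI. The `(n !) ^ c`-th powers generate a triangularisable group. Proof. Let `H` be the subgroup
generated by the powers `g ^ E`, `E = (n !) ^ c`, and `W < U` `H`-invariant. Among the `P`-invariant `X`
with `¬ X ⊓ U ≤ W` (`X = ⊤` is one) take one of minimal dimension. `X ≠ ⊥`. Let `Y < X` be a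
`P`-invariant subspace of maximal dimension among the `P`-invariant proper subspaces of `X`. `X / Y` is
irreducible (work with `quoS` of `resS`, or `resS` of `quoS`), of dimension `1 ≤ d ≤ n`, so by N_IRR
`g ^ (d ^ c)` is a scalar on `X / Y`, hence also its power `g ^ E` (`d ∣ n !`); hence every
`h ∈ H` is a scalar on `X / Y` (closure induction; scalars nonzero for inverses): for `h ∈ H` there is
`a : K` with `ρ h v - a • v ∈ Y` for all `v ∈ X`. By minimality of `X`, `Y ⊓ U ≤ W`. Take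
`v ∈ X ⊓ U`, `v ∉ W`: `ρ h v - a • v ∈ Y ⊓ U ≤ W` (`U` is `H`-invariant). -/
def N_TRI_stmt : Prop :=
  ∀ (K V : Type) [Field K] [IsAlgClosed K] [AddCommGroup V] [Module K V] [FiniteDimensional K V]
    (P : Type) [Group P] (c : ℕ), Subgroup.upperCentralSeries P c = ⊤ →
    ∀ (ρ : P →* Module.End K V) (H : Subgroup P),
      H = Subgroup.closure (Set.range fun g : P => g ^ (finrank K V).factorial ^ c) →
      TriS (ρ.comp H.subtype)

/-- N_FIT. Generalised eigenspaces are invariant. Proof. Induction on `dim V` (for all `V`). `V ≠ 0`: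
`TriS` with `⊥ < ⊤` gives `v₁ ≠ 0` with `ρ g v₁ = χ g • v₁`, `χ` is multiplicative, `χ g ≠ 0`; `χ` is `1`
on commutators. Let `L = K v₁`, `x ∈ Q`, `l ∈ K`, `E` the generalised eigenspace of `ρ x` for `l`,
`m = χ x`, `N` large (`N ≥ dim V`; `E = ker (ρ x - l) ^ N`), `M = {v : (ρ x - l) ^ N v ∈ L}`. By
induction (for `V / L`, N_RES) `M` is `Q`-invariant. Case `m = l`: `M = E` (`(ρ x - l) v₁ = 0`; use
`N + 1`, `ker` does not change). Case `m ≠ l`: `M = L ⊕ E` (if `(ρ x - l)^N v = a v₁` then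
`v - a (m - l)^(-N) v₁ ∈ E`). Let `T = (ρ x - l)^N : M → L`, kernel `E`. Claim: `g ∈ Z_i(Q)`,
`w ∈ E` imply `ρ g w ∈ E`; induction on `i`. `i = 0`: `g = 1`. Step: `g ∈ Z_{i+1}`,
`h = x g x⁻¹ g⁻¹ ∈ Z_i`, `x g = h g x`. For `w ∈ E`: `m • T (g w) = x T (g w) = T (x g w) = T (h g x w)`.
As `g x w ∈ M` write `g x w = a v₁ + e`, `e ∈ E`; `h e ∈ E` by induction and `χ h = 1`, so
`T (h g x w) = a T v₁ = T (g x w)`. Hence `T (g ((x - m) w)) = 0` for all `w ∈ E`; since `x - m` maps `E`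
onto `E` (injective as `m ≠ l`, finite dimension) `T (g w) = 0` for all `w ∈ E`. -/
def N_FIT_stmt : Prop :=
  ∀ (K V : Type) [Field K] [AddCommGroup V] [Module K V] [FiniteDimensional K V] (Q : Type) [Group Q],
    Group.IsNilpotent Q → ∀ ρ : Q →* Module.End K V, TriS ρ → ∀ (x : Q) (l : K),
      InvS ρ ((ρ x).maxGenEigenspace l)

/-- N_UNI. The case of one eigenvalue. Let `χ g` be the eigenvalue of `ρ g`. Proof. If `V = 0` everything
is trivial. (a) If `W < U` are invariant, `TriS` gives `v ∈ U`, `v ∉ W` with `ρ g v - c_g v ∈ W`; then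
`(ρ g - χ g)^N v ≡ (c_g - χ g)^N v` modulo `W` for large `N`, so `c_g = χ g`. (b) With `W = ⊥`, `U = ⊤`:
`χ` is multiplicative, never zero; `χ = 1` on commutators. (c) `A 0 = ⊤`, `A (i+1)` is the span of all
`ρ g w - χ g • w`, `w ∈ A i`. Invariant: `h (ρ g - χ g) w = (ρ (h g h⁻¹) - χ (h g h⁻¹)) (h w)`.
`A (i+1) < A i` if `A i ≠ ⊥`: take an invariant `W < A i` of maximal dimension and `v` from (a);
`W ⊔ K v` is invariant, so it is `A i`, and `ρ g u - χ g • u ∈ W` for all `u ∈ A i`. So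
`dim (A i) ≤ n - i`. (d) For `t ∈ γ_{k+1}(Q)`: `(ρ t - χ t) (A i) ⊆ A (i + k + 1)` for all `i`. Induction
on `k`; the `t` with this property form a subgroup (`ρ (t s) - χ (t s) = ρ t (ρ s - χ s) +
χ s (ρ t - χ t)`), and for `t = a b a⁻¹ b⁻¹`, `a ∈ γ_k`, `b ∈ Q`:
`ρ t - 1 = (ρ a ρ b - ρ b ρ a) ρ (b a)⁻¹ = (a' b' - b' a') ρ (b a)⁻¹` with `a' = ρ a - χ a`,
`b' = ρ b - χ b`. (e) `k ≥ 1`: `χ t = 1`, and the range of `ρ t - 1` is in `A (k + 1)`. -/
def N_UNI_stmt : Prop :=
  ∀ (K V : Type) [Field K] [AddCommGroup V] [Module K V] [FiniteDimensional K V] (Q : Type) [Group Q]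
    (ρ : Q →* Module.End K V), TriS ρ →
    (∀ g : Q, ∃ a : K, IsNilpotent (ρ g - a • (1 : Module.End K V))) →
    ∀ k : ℕ, 1 ≤ k → ∀ t ∈ (⊤ : Subgroup Q).lowerCentralSeries k,
      finrank K (LinearMap.range (ρ t - 1)) ≤ finrank K V - (k + 1)

/-- N_SPL. Bound for the action of the lower central series. Proof. (1) by strong induction on
`n = dim V` (for all `V`, `Q` fixed or not). If every `ρ g` has only one eigenvalue, N_UNI (`ρ g - a` is
nilpotent; `n - n = 0`, resp. `2 - 2`, `1 - 2`; `t` is in the series for `k = max n 2 - 1 ≥ 1`).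
Otherwise some `ρ x` has two eigenvalues, `V` is the direct sum of the generalised eigenspaces
(`Module.End.iSup_maxGenEigenspace_eq_top`), which are invariant (N_FIT) of smaller dimension, `TriS`
restricts (N_RES), and by induction `t` is the identity on each of them (the lower central series is
antitone: `Subgroup.lowerCentralSeries_antitone`). (2) `n ≥ 3`, `t ∈ γ_{n-1}(Q)`: one eigenvalue:
N_UNI with `k = n - 2 ≥ 1`. Otherwise `ρ t = 1` by (1) on the generalised eigenspaces (dimension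
`≤ n - 1`, `max (n-1) 2 = n - 1`), the rank is `0`. -/
def N_SPL_stmt : Prop :=
  ∀ (K V : Type) [Field K] [IsAlgClosed K] [AddCommGroup V] [Module K V] [FiniteDimensional K V]
    (Q : Type) [Group Q], Group.IsNilpotent Q → ∀ ρ : Q →* Module.End K V, TriS ρ →
    (∀ t ∈ (⊤ : Subgroup Q).lowerCentralSeries (max (finrank K V) 2 - 1), ρ t = 1) ∧
    (3 ≤ finrank K V → ∀ t ∈ (⊤ : Subgroup Q).lowerCentralSeries (finrank K V - 2),
      finrank K (LinearMap.range (ρ t - 1)) ≤ 1)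

/-- N_POW. Subgroups containing powers of all elements have the same class. Proof. Let
`γ_i = γ_i(G)`, `γ_i(H)` the lower central series of `H` seen in `G`
(`Subgroup.lowerCentralSeries` of the subgroup `H`, see `Subgroup.top_subtype_lowerCentralSeries`).
Claim: for `i ≥ 1` and `y ∈ γ_i` there are `k > 0`, `h ∈ γ_i(H)`, `r ∈ γ_{i+1}` with `y ^ k = h * r`.
`i = 1`: hypothesis. Step `i → i+1`: the `y ∈ γ_{i+1}` with this property form a subgroup
(`γ_{i+1} / γ_{i+2}` is abelian, even central in `G / γ_{i+2}`), and for `y = [a, b]`, `a ∈ γ_i`, `b ∈ G`,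
`a ^ k = h r`, `b ^ l = h' ∈ H`: modulo `γ_{i+2}` `[a, b] ^ (k l) ≡ [a ^ k, b ^ l] ≡ [h, h']`. (If
`[a, b]` is central modulo a normal subgroup then `[a ^ k, b ^ l] ≡ [a, b] ^ (k l)`.) With `i = c + 1`
(Mathlib index `c`), `γ_{c+2} = 1`, `1 ≠ y ∈ γ_{c+1}`: `y ^ k = h ∈ γ_{c+1}(H)`, not `1`. -/
def N_POW_stmt : Prop :=
  ∀ (G : Type) [Group G] (H : Subgroup G) (c : ℕ), (∀ g : G, g ≠ 1 → ∀ k : ℕ, 0 < k → g ^ k ≠ 1) →
    (∀ g : G, ∃ k : ℕ, 0 < k ∧ g ^ k ∈ H) → (⊤ : Subgroup G).lowerCentralSeries c ≠ ⊥ →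
    (⊤ : Subgroup G).lowerCentralSeries (c + 1) = ⊥ → (⊤ : Subgroup H).lowerCentralSeries c ≠ ⊥

/-- N_CEN. A nontrivial central commutator gives the pair. Proof. Let `u = x`, `t = x y x⁻¹ y⁻¹`. If
`x ^ k = t ^ m` then `x ^ k` commutes with `y`; but `x ^ k y x⁻ᵏ y⁻¹ = t ^ k` as `t` is central, so
`t ^ k = 1`, contradiction. -/
def N_CEN_stmt : Prop :=
  ∀ (P : Type) [Group P], (∀ g : P, g ≠ 1 → ∀ k : ℕ, 0 < k → g ^ k ≠ 1) → ∀ x y t : P,
    t = x * y * x⁻¹ * y⁻¹ → t ≠ 1 → t * x = x * t → t * y = y * t →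
    ∀ k : ℕ, 0 < k → ∀ m : ℤ, x ^ k ≠ t ^ m

/-- N_BIG. The case of class `≥ n - 1`. Proof. Let `c + 1` be the class of `P` (the least number with
`γ_{c+2}(P) = 1`; `γ_{c+1}(P) ≠ 1`; `c ≥ n - 2 ≥ 1`), `Z_{c+1}(P) = P`, `H` the subgroup of N_TRI for
`c + 1`. `TriS (ρ.comp H.subtype)`; `H` is nilpotent; by N_POW `γ_{c+1}(H) ≠ 1`. If `c ≥ n - 1` then
`γ_{c+1}(H) ≤ γ_n(H)` acts trivially (N_SPL (1)), contradiction to injectivity. So `c = n - 2`. As
`γ_{c+1}(H) ≠ 1` is generated by commutators, there are `x ∈ γ_c(H)`, `y ∈ H` with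
`t = y x y⁻¹ x⁻¹ ≠ 1` (or the inverse); `t ∈ γ_{n-1}(H)` is central in `H` (`γ_{c+2}(H) = 1`). By N_SPL (2)
and injectivity the rank is `1`. N_CEN. (`u = y`.) -/
def N_BIG_stmt : Prop :=
  ∀ (n : ℕ), 3 ≤ n → ∀ (K V : Type) [Field K] [CharZero K] [IsAlgClosed K] [AddCommGroup V] [Module K V]
    [FiniteDimensional K V] (P : Type) [Group P], finrank K V = n → Group.IsNilpotent P →
    (∀ g : P, g ≠ 1 → ∀ k : ℕ, 0 < k → g ^ k ≠ 1) → (⊤ : Subgroup P).lowerCentralSeries (n - 2) ≠ ⊥ →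
    ∀ ρ : P →* Module.End K V, Function.Injective ρ →
      ∃ t u : P, t * u = u * t ∧ finrank K (LinearMap.range (ρ t - 1)) = 1 ∧
        ∀ k : ℕ, 0 < k → ∀ m : ℤ, u ^ k ≠ t ^ m

/-- N_KA. The trace argument. `N = z - 1`. Proof. Restrict to `V₁ = S` (invariant under `x`, `y`,
`N`; `x`, `y` are bijective on it by finite dimension). Let `W = S.map N = ker N ⊓ S ≠ ⊥`. Choose a
linear `σ : W → S` with `N (σ w) = w`. `x`, `y` commute with `N`, so they preserve `W`; let
`C = x|W`, `A = y|W : W → W` (bijective). Since `N (y σ w) = y w = N (σ (A w))`, `y σ = σ A + B` with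
`B : W → W` (`ker N ⊓ S = W`), and `x σ = σ C + D`. On `W` `N = 0`, so `C A = A C`. Then
`x y σ = σ C A + D A + C B`, `y x σ = σ A C + B C + A D`, `N y x σ = A C` and `x y = (1 + N) y x` give
`D A - A D + C B - B C = A C`. Multiply by `(A C)⁻¹` on the right and take traces on `W`:
`tr (D A (A C)⁻¹) = tr (D C⁻¹) = tr (A D (A C)⁻¹)`, `tr (C B (A C)⁻¹) = tr (B A⁻¹) = tr (B C (A C)⁻¹)`, so
`0 = dim W` in `K`, contradiction to characteristic zero. (`LinearMap.trace_mul_comm`.) -/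
def N_KA_stmt : Prop :=
  ∀ (K V : Type) [Field K] [CharZero K] [AddCommGroup V] [Module K V] [FiniteDimensional K V]
    (x y x' y' N : Module.End K V), x * x' = 1 → x' * x = 1 → y * y' = 1 → y' * y = 1 → x * N = N * x →
    y * N = N * y → x * y = (1 + N) * y * x → ∀ S : Submodule K V, S.map x ≤ S → S.map y ≤ S →
    S.map N ≤ S → (∀ v ∈ S, N (N v) = 0) → S.map N ≠ ⊥ → LinearMap.ker N ⊓ S ≤ S.map N → False

/-- N_KB. Linear algebra in dimension `≤ 4`. Proof. Let `N ^ s = 0 ≠ N ^ (s-1)`, `j = s - 2`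
(`s ≥ 2`), `S = range (N ^ j)`, `d_i = dim (ker N ⊓ range (N ^ i))` for `i ≥ 0`, nonincreasing,
`d_i = r_i - r_{i+1}` with `r_i = dim (range (N ^ i))`, `Σ d_i = dim V ≤ 4`, `r_1 = d_1 + d_2 + ... ≥ 2`,
`d_{s-1} = r_{s-1} ≥ 1`. `s = 2`: `d_0 + d_1 ≤ 4`, `d_1 ≥ 2`, so `d_0 = d_1`. `s = 3`:
`d_0 ≥ d_1 ≥ d_2 ≥ 1` with sum `≤ 4`, so `d_1 = d_2 = 1`. `s = 4`: all `1`. So always
`d_{s-2} = d_{s-1}`, and `S.map N = range (N ^ (s-1)) ≤ ker N ⊓ S` have the same dimension. -/
def N_KB_stmt : Prop :=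
  ∀ (K V : Type) [Field K] [AddCommGroup V] [Module K V] [FiniteDimensional K V] (N : Module.End K V),
    finrank K V ≤ 4 → IsNilpotent N → 2 ≤ finrank K (LinearMap.range N) →
    ∃ (j : ℕ) (S : Submodule K V), S = LinearMap.range (N ^ j) ∧ (∀ v ∈ S, N (N v) = 0) ∧
      S.map N ≠ ⊥ ∧ LinearMap.ker N ⊓ S ≤ S.map N

/-- N_KC. A power of a central commutator is unipotent. (`C1_stmt` of helper48's SpecC for the matrices in
a basis, or directly: let `l` be an eigenvalue of `z`, `E` its generalised eigenspace, of dimension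
`1 ≤ d ≤ n`; `x`, `y` commute with `z`, preserve `E`; `det (z | E) = 1 = l ^ d`.) -/
def N_KC_stmt : Prop :=
  ∀ (K V : Type) [Field K] [IsAlgClosed K] [AddCommGroup V] [Module K V] [FiniteDimensional K V]
    (x y x' y' z : Module.End K V), x * x' = 1 → x' * x = 1 → y * y' = 1 → y' * y = 1 →
    z = x * y * x' * y' → z * x = x * z → z * y = y * z →
    IsNilpotent (z ^ (finrank K V).factorial - 1)

/-- N_K4. Class two in dimension `4`. Proof. There are `x₀`, `y` with `z₀ = [x₀, y] ≠ 1`, central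
(`γ_3 = 1`). Let `k = 4 !`, `x = x₀ ^ k`, `z = [x, y] = z₀ ^ k ≠ 1`; `ρ z = (ρ z₀) ^ k` is unipotent
(N_KC). `N = ρ z - 1 ≠ 0` is nilpotent, commutes with `ρ x`, `ρ y`. If its rank is `≥ 2`, N_KB and N_KA
(`S = range (N ^ j)` is invariant) give a contradiction. So the rank is `1`; `t = z`, `u = x`, N_CEN. -/
def N_K4_stmt : Prop :=
  ∀ (K V : Type) [Field K] [CharZero K] [IsAlgClosed K] [AddCommGroup V] [Module K V] [FiniteDimensional K V]
    (P : Type) [Group P], finrank K V = 4 → (∀ g : P, g ≠ 1 → ∀ k : ℕ, 0 < k → g ^ k ≠ 1) →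
    (⊤ : Subgroup P).lowerCentralSeries 1 ≠ ⊥ → (⊤ : Subgroup P).lowerCentralSeries 2 = ⊥ →
    ∀ ρ : P →* Module.End K V, Function.Injective ρ →
      ∃ t u : P, t * u = u * t ∧ finrank K (LinearMap.range (ρ t - 1)) = 1 ∧
        ∀ k : ℕ, 0 < k → ∀ m : ℤ, u ^ k ≠ t ^ m

/-- N_FIN. The main statement. Proof. `K = AlgebraicClosure F`, `V = Fin n → K`, compose `ρ` with
`Matrix.map (algebraMap F K)` and `Matrix.toLin'`; injective; `rank (A.map (algebraMap F K)) = rank A`
(the rank is the largest size of an invertible minor, or: a matrix of rank `r` over `F` is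
`P * D * Q` with `P`, `Q` invertible and `D` diagonal with `r` ones) and `Matrix.rank` is the `finrank` of
the range of `mulVecLin`. Class `≥ n - 1`: N_BIG. Otherwise `n = 4`, `γ_2(P) ≠ 1`; if `γ_3(P) ≠ 1` then
N_BIG (`n - 2 = 2`), else N_K4. -/
def N_FIN_stmt : Prop := NIL_stmt

end Pool.Agent.PR
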