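import Pool.Agent.helper17.PR.SpecN

set_option autoImplicit false

namespace Pool.Agent.PR

/-- N_CEN. -/
theorem N_CEN : N_CEN_stmt := by
  intro P _ htf x y t ht ht1 hx hy k hk m he
  have hxy : x * y = t * y * x := by rw [ht]; group
  have h1 : ∀ j : ℕ, x ^ j * y = t ^ j * y * x ^ j := by
    intro j
    induction j with
    | zero => simp
    | succ j ih =>
      have h2 : x * t ^ j = t ^ j * x := by
        have : Commute t x := hx
        exact (this.pow_left j).eq.symm
      calc x ^ (j + 1) * y = x * (x ^ j * y) := by rw [pow_succ', mul_assoc]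
        _ = x * (t ^ j * y * x ^ j) := by rw [ih]
        _ = (x * t ^ j) * y * x ^ j := by group
        _ = t ^ j * (x * y) * x ^ j := by rw [h2]; group
        _ = t ^ j * (t * y * x) * x ^ j := by rw [hxy]
        _ = t ^ (j + 1) * y * x ^ (j + 1) := by rw [pow_succ, pow_succ' x]; group
  have h3 : x ^ k * y = y * x ^ k := by
    rw [he]
    have : Commute t y := hy
    exact (this.zpow_left m).eq
  have h4 : t ^ k = 1 := by
    have h5 := h1 k
    rw [h3, mul_assoc] at h5
    have h6 : (t ^ k) * (y * x ^ k) = 1 * (y * x ^ k) := by rw [one_mul]; exact h5.symm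
    exact mul_right_cancel h6
  exact htf t ht1 k hk h4

end Pool.Agent.PR
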