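import Pool.Agent.helper17.PR.SpecN
import Pool.Agent.helper17.PR.RKX
import Pool.Agent.helper5.PR.SpecS

/-!
# Project pr (MP_a2a22c_al), part N, supplement: `S_NILU_stmt` (unipotent partner)

Modules as in `SpecN.lean`. `rank_map_ext` (file `RKX.lean`) is the invariance of the rank under field
extensions.
-/

set_option autoImplicit false

namespace Pool.Agent.PR

open Module

/-- N_SNG. If `γ_{n-1}(Q)` acts nontrivially there is only one eigenvalue. Proof. `K` is algebraically
closed, `V ≠ 0`. If some `ρ x` has two eigenvalues, `V` is the direct sum of the generalised eigenspaces of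
`ρ x` (`Module.End.iSup_maxGenEigenspace_eq_top`), invariant by N_FIT, of dimension `≤ n - 1`; by N_RES and
N_SPL (1), applied to each of them (`max (n - 1) 2 - 1 = n - 2`), `t` is the identity on each. If `ρ g` has the
only eigenvalue `a`, then `maxGenEigenspace a = ⊤`, so `ρ g - a` is nilpotent. -/
def N_SNG_stmt : Prop :=
  ∀ (K V : Type) [Field K] [IsAlgClosed K] [AddCommGroup V] [Module K V] [FiniteDimensional K V]
    (Q : Type) [Group Q], Group.IsNilpotent Q → ∀ ρ : Q →* Module.End K V, TriS ρ →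
    3 ≤ finrank K V → ∀ t ∈ (⊤ : Subgroup Q).lowerCentralSeries (finrank K V - 2), ρ t ≠ 1 →
    ∀ g : Q, ∃ a : K, IsNilpotent (ρ g - a • (1 : Module.End K V))

/-- N_BGU. As N_BIG with determinant one; the partner is unipotent. Proof. As in N_BIG: `H`, class exactly
`n - 1`, `x ∈ γ_{n-2}(H)`, `y ∈ H`, `t₀ = y x y⁻¹ x⁻¹ ≠ 1`, `t₀ ∈ γ_{n-1}(H)`, central in `H`. Let `u = y ^ n`,
`t = u x u⁻¹ x⁻¹ = t₀ ^ n ≠ 1`. Rank one as before, no power relation by N_CEN (for `u`, `x`). By N_SNG
(`ρ t₀ ≠ 1` by injectivity) `ρ y - a` is nilpotent, `det (ρ y) = a ^ n = 1`, so `(ρ y) ^ n - 1` is a multiple of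
`ρ y - a` and nilpotent, so `(ρ u - 1) ^ n = 0` (`n = dim V`). -/
def N_BGU_stmt : Prop :=
  ∀ (n : ℕ), 3 ≤ n → ∀ (K V : Type) [Field K] [CharZero K] [IsAlgClosed K] [AddCommGroup V] [Module K V]
    [FiniteDimensional K V] (P : Type) [Group P], finrank K V = n → NilC (n - 2) P →
    ∀ ρ : P →* Module.End K V, Function.Injective ρ → (∀ g, LinearMap.det (ρ g) = 1) →
      ∃ t u : P, t * u = u * t ∧ finrank K (LinearMap.range (ρ t - 1)) = 1 ∧
        (∀ k : ℕ, 0 < k → ∀ m : ℤ, u ^ k ≠ t ^ m) ∧ (ρ u - 1) ^ n = 0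

/-- N_NILU. The statement `S_NILU_stmt` of helper5's SpecS. Proof. As N_FIN: `K = AlgebraicClosure F`,
`V = Fin n → K`, `ρ` composed with `Matrix.map` and `Matrix.toLin'`; N_BGU; `rank_map_ext`; the equation
`(ρ u - 1) ^ n = 0` over `K` gives it over `F` (injectivity of `Matrix.map`). -/
def N_NILU_stmt : Prop := S_NILU_stmt

end Pool.Agent.PR
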